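import Mathlib

/-!
# Highest weight vectors of forms: statements

`V` is a complex vector space with a basis `e` indexed by the pairs `⟨j, a⟩`, `j < N`,
`a < d (lab j)`. The endomorphism `bE c e x` is given by the square matrices `x i` (of size `d i`,
`i < s`): it maps `e ⟨j, b⟩` to `∑ a, x (lab j) a b • e ⟨j, a⟩`.
-/

set_option linter.unusedSectionVars false

namespace Pool.Agent.Y90.G

open Module Finset

noncomputable section

section act

variable {V : Type*} [AddCommGroup V] [Module ℂ V] {κ : Type*} [Fintype κ] [DecidableEq κ]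

/-- The action of an endomorphism on multilinear forms as a derivation. -/
def ac (X : V →ₗ[ℂ] V) :
    MultilinearMap ℂ (fun _ : κ => V) ℂ →ₗ[ℂ] MultilinearMap ℂ (fun _ : κ => V) ℂ :=
  ∑ k, MultilinearMap.compLinearMapₗ (Function.update (fun _ => LinearMap.id) k X)

theorem ac_apply (X : V →ₗ[ℂ] V) (F : MultilinearMap ℂ (fun _ : κ => V) ℂ) (v : κ → V) :
    ac X F v = ∑ k, F (Function.update v k (X (v k))) := by
  unfold ac
  rw [LinearMap.sum_apply, _root_.sum_apply]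
  refine Finset.sum_congr rfl fun k _ => ?_
  change F (fun i => Function.update (fun _ => LinearMap.id) k X i (v i)) = _
  congr 1
  funext i
  rcases eq_or_ne i k with rfl | h
  · rw [Function.update_self, Function.update_self]
  · rw [Function.update_of_ne h, Function.update_of_ne h]
    rfl

theorem ac_add (X Y : V →ₗ[ℂ] V) (F : MultilinearMap ℂ (fun _ : κ => V) ℂ) :
    ac (X + Y) F = ac X F + ac Y F := by
  ext v
  rw [add_apply, ac_apply, ac_apply, ac_apply, ← Finset.sum_add_distrib]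
  exact Finset.sum_congr rfl fun k _ => by rw [LinearMap.add_apply, F.map_update_add]

theorem ac_smul (z : ℂ) (X : V →ₗ[ℂ] V) (F : MultilinearMap ℂ (fun _ : κ => V) ℂ) :
    ac (z • X) F = z • ac X F := by
  ext v
  rw [smul_apply, ac_apply, ac_apply, Finset.smul_sum]
  exact Finset.sum_congr rfl fun k _ => by rw [LinearMap.smul_apply, F.map_update_smul]

/-- The bracket (the order is reversed). -/
theorem ac_br (X Y : V →ₗ[ℂ] V) (F : MultilinearMap ℂ (fun _ : κ => V) ℂ) :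
    ac X (ac Y F) - ac Y (ac X F) = ac (Y ∘ₗ X - X ∘ₗ Y) F := by
  ext v
  have h1 : ∀ A C : V →ₗ[ℂ] V, ac A (ac C F) v = ∑ k, ∑ l, F (Function.update
      (Function.update v k (A (v k))) l (C (Function.update v k (A (v k)) l))) := by
    intro A C
    rw [ac_apply]
    exact Finset.sum_congr rfl fun k _ => ac_apply _ _ _
  have h2 : ∀ A C : V →ₗ[ℂ] V, ∀ k, ∑ l, F (Function.update
      (Function.update v k (A (v k))) l (C (Function.update v k (A (v k)) l))) =
      F (Function.update v k (C (A (v k)))) + ∑ l ∈ Finset.univ.erase k, F (Function.update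
      (Function.update v k (A (v k))) l (C (v l))) := by
    intro A C k
    rw [← Finset.add_sum_erase _ _ (Finset.mem_univ k), Function.update_self,
      Function.update_idem]
    congr 1
    refine Finset.sum_congr rfl fun l hl => ?_
    rw [Function.update_of_ne (Finset.ne_of_mem_erase hl)]
  have h3 : ∑ k, ∑ l ∈ Finset.univ.erase k, F (Function.update
      (Function.update v k (X (v k))) l (Y (v l))) =
      ∑ k, ∑ l ∈ Finset.univ.erase k, F (Function.update
      (Function.update v k (Y (v k))) l (X (v l))) := by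
    rw [Finset.sum_sigma', Finset.sum_sigma']
    refine Finset.sum_nbij' (fun p => ⟨p.2, p.1⟩) (fun p => ⟨p.2, p.1⟩) ?_ ?_ ?_ ?_ ?_
    · rintro ⟨k, l⟩ h
      simp only [Finset.mem_sigma, Finset.mem_univ, Finset.mem_erase, true_and, and_true] at h ⊢
      exact fun h' => h h'.symm
    · rintro ⟨k, l⟩ h
      simp only [Finset.mem_sigma, Finset.mem_univ, Finset.mem_erase, true_and, and_true] at h ⊢
      exact fun h' => h h'.symm
    · exact fun _ _ => rfl
    · exact fun _ _ => rfl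
    · rintro ⟨k, l⟩ h
      simp only [Finset.mem_sigma, Finset.mem_univ, Finset.mem_erase, true_and, and_true] at h
      rw [Function.update_comm h]
  rw [sub_apply, h1, h1, Finset.sum_congr rfl fun k _ => h2 X Y k,
    Finset.sum_congr rfl fun k _ => h2 Y X k, Finset.sum_add_distrib, Finset.sum_add_distrib, h3,
    add_sub_add_right_eq_sub, ac_apply, ← Finset.sum_sub_distrib]
  exact Finset.sum_congr rfl fun k _ => by
    rw [LinearMap.sub_apply, F.map_update_sub]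
    rfl

/-- The action of an endomorphism on multilinear forms by substitution. -/
def gr (g : V →ₗ[ℂ] V) :
    MultilinearMap ℂ (fun _ : κ => V) ℂ →ₗ[ℂ] MultilinearMap ℂ (fun _ : κ => V) ℂ :=
  MultilinearMap.compLinearMapₗ (fun _ => g)

theorem gr_apply (g : V →ₗ[ℂ] V) (F : MultilinearMap ℂ (fun _ : κ => V) ℂ) (v : κ → V) :
    gr g F v = F (fun k => g (v k)) := rfl

end act

/-- Combinatorial data: the sizes `d i` of the blocks, the duality `st`, the line `ka i` attached to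
a block of odd size, and the labels `lab j` of the copies. -/
structure CD (s N : ℕ) where
  d : Fin s → ℕ
  st : Fin s → Fin s
  ka : Fin s → Fin s
  lab : Fin N → Fin s

variable {s N : ℕ}

/-- The conditions on the combinatorial data. -/
structure CD.Ok (c : CD s N) : Prop where
  pos : ∀ i, 0 < c.d i
  stst : ∀ i, c.st (c.st i) = i
  dst : ∀ i, c.d (c.st i) = c.d i
  even : ∀ i, c.st i = i → Even (c.d i)
  ka1 : ∀ i, Odd (c.d i) → c.d (c.ka i) = 1
  kast : ∀ i, Odd (c.d i) → c.ka (c.st i) = c.st (c.ka i)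
  kal : ∀ i, c.d i = 1 → c.ka i = i
  sur : ∀ i, ∃ j, c.lab j = i

/-- The index set of the basis. -/
abbrev CD.R (c : CD s N) : Type := Σ j : Fin N, Fin (c.d (c.lab j))

variable (c : CD s N)

/-- Signs. -/
def sg (i : Fin s) (a : ℕ) : ℂ := if c.st i = i ∧ c.d i ≤ 2 * a then -1 else 1

/-- Families of matrices which are skew for the duality. -/
def LieD (x : Fin s → ℕ → ℕ → ℂ) : Prop :=
  ∀ i a b, a < c.d i → b < c.d i →
    x (c.st i) a b = -(sg c i a * sg c i b) * x i (c.d i - 1 - b) (c.d i - 1 - a)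

/-- The relation of the traces. -/
def TrD (x : Fin s → ℕ → ℕ → ℂ) : Prop :=
  (∀ i, Odd (c.d i) → ∑ a ∈ range (c.d i), x i a a = x (c.ka i) 0 0) ∧
    ∀ i, Even (c.d i) → ∑ a ∈ range (c.d i), x i a a = 0

/-- All traces vanish. -/
def TrZ (x : Fin s → ℕ → ℕ → ℂ) : Prop := ∀ i, ∑ a ∈ range (c.d i), x i a a = 0

/-- Diagonal matrices. -/
def dg (h : Fin s → ℕ → ℂ) : Fin s → ℕ → ℕ → ℂ := fun i a b => if a = b then h i a else 0

/-- Strictly lower triangular matrices. -/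
def SLow (x : Fin s → ℕ → ℕ → ℂ) : Prop := ∀ i a b, a ≤ b → x i a b = 0

/-- The diagonal elements. -/
def HH (h : Fin s → ℕ → ℂ) : Prop :=
  (∀ i a, a < c.d i → h (c.st i) a = -h i (c.d i - 1 - a)) ∧
    (∀ i, Odd (c.d i) → ∑ a ∈ range (c.d i), h i a = h (c.ka i) 0) ∧
    ∀ i, Even (c.d i) → ∑ a ∈ range (c.d i), h i a = 0

/-- Choices of signs on the lines. -/
def Sgn (ε : Fin s → ℤ) : Prop :=
  ∀ i, c.d i = 1 → (ε i = 1 ∨ ε i = -1) ∧ ε (c.st i) = -ε i

/-- The eigenvalues of a complex structure with trace `t` on a block of size `d`. -/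
def etaT (t : ℤ) (d a : ℕ) : ℤ := if (2 * a : ℤ) < d + t then 1 else -1

/-- The eigenvalues of the complex structures. -/
def eta (ε : Fin s → ℤ) (i : Fin s) (a : ℕ) : ℤ :=
  etaT (if Odd (c.d i) then ε (c.ka i) else 0) (c.d i) a

variable {V : Type} [AddCommGroup V] [Module ℂ V]

/-- Block matrices. -/
def bE (e : Basis c.R ℂ V) (x : Fin s → ℕ → ℕ → ℂ) : V →ₗ[ℂ] V :=
  e.constr ℂ fun r => ∑ a : Fin (c.d (c.lab r.1)), x (c.lab r.1) a r.2 • e ⟨r.1, a⟩

theorem bE_apply (e : Basis c.R ℂ V) (x : Fin s → ℕ → ℕ → ℂ) (r : c.R) :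
    bE c e x (e r) = ∑ a : Fin (c.d (c.lab r.1)), x (c.lab r.1) a r.2 • e ⟨r.1, a⟩ :=
  e.constr_basis ℂ _ r

theorem bE_add (e : Basis c.R ℂ V) (x y : Fin s → ℕ → ℕ → ℂ) :
    bE c e (x + y) = bE c e x + bE c e y := by
  refine e.ext fun r => ?_
  rw [LinearMap.add_apply, bE_apply, bE_apply, bE_apply, ← Finset.sum_add_distrib]
  exact Finset.sum_congr rfl fun a _ => add_smul _ _ _

theorem bE_smul (e : Basis c.R ℂ V) (z : ℂ) (x : Fin s → ℕ → ℕ → ℂ) :
    bE c e (z • x) = z • bE c e x := by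
  refine e.ext fun r => ?_
  rw [LinearMap.smul_apply, bE_apply, bE_apply, Finset.smul_sum]
  exact Finset.sum_congr rfl fun a _ => by
    change (z * x (c.lab r.1) a r.2) • _ = _
    rw [mul_smul]

/-- Products of families of matrices. -/
def mulD (x y : Fin s → ℕ → ℕ → ℂ) : Fin s → ℕ → ℕ → ℂ :=
  fun i a b => ∑ k ∈ range (c.d i), x i a k * y i k b

theorem bE_mul (e : Basis c.R ℂ V) (x y : Fin s → ℕ → ℕ → ℂ) :
    bE c e (mulD c x y) = bE c e x ∘ₗ bE c e y := by
  refine e.ext fun r => ?_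
  rw [LinearMap.comp_apply, bE_apply, bE_apply, map_sum]
  have h1 : ∀ k : Fin (c.d (c.lab r.1)), bE c e x (y (c.lab r.1) k r.2 • e ⟨r.1, k⟩) =
      ∑ a : Fin (c.d (c.lab r.1)), (x (c.lab r.1) a k * y (c.lab r.1) k r.2) • e ⟨r.1, a⟩ := by
    intro k
    rw [map_smul, bE_apply, Finset.smul_sum]
    exact Finset.sum_congr rfl fun a _ => by rw [smul_smul, mul_comm]
  rw [Finset.sum_congr rfl fun k _ => h1 k, Finset.sum_comm]
  refine Finset.sum_congr rfl fun a _ => ?_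
  rw [← Finset.sum_smul]
  congr 1
  exact (Fin.sum_univ_eq_sum_range
    (fun k => x (c.lab r.1) a k * y (c.lab r.1) k r.2) (c.d (c.lab r.1))).symm

/-- The space of the block matrices which are skew for the duality and satisfy the relation of the
traces. -/
def gD (e : Basis c.R ℂ V) : Submodule ℂ (V →ₗ[ℂ] V) where
  carrier := {X | ∃ x, LieD c x ∧ TrD c x ∧ X = bE c e x}
  zero_mem' := ⟨0, fun i a b _ _ => by simp, ⟨fun i _ => by simp, fun i _ => by simp⟩,
    (e.ext fun r => by rw [bE_apply]; simp)⟩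
  add_mem' := by
    rintro _ _ ⟨x, h1, h2, rfl⟩ ⟨y, h3, h4, rfl⟩
    refine ⟨x + y, fun i a b ha hb => ?_, ⟨fun i hi => ?_, fun i hi => ?_⟩, (bE_add c e x y).symm⟩
    · change x _ a b + y _ a b = _ * (x _ _ _ + y _ _ _)
      rw [h1 i a b ha hb, h3 i a b ha hb]
      ring
    · change ∑ a ∈ range (c.d i), (x i a a + y i a a) = x _ 0 0 + y _ 0 0
      rw [Finset.sum_add_distrib, h2.1 i hi, h4.1 i hi]
    · change ∑ a ∈ range (c.d i), (x i a a + y i a a) = 0
      rw [Finset.sum_add_distrib, h2.2 i hi, h4.2 i hi, add_zero]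
  smul_mem' := by
    rintro z _ ⟨x, h1, h2, rfl⟩
    refine ⟨z • x, fun i a b ha hb => ?_, ⟨fun i hi => ?_, fun i hi => ?_⟩,
      (bE_smul c e z x).symm⟩
    · change z * x _ a b = _ * (z * x _ _ _)
      rw [h1 i a b ha hb]
      ring
    · change ∑ a ∈ range (c.d i), z * x i a a = z * x _ 0 0
      rw [← Finset.mul_sum, h2.1 i hi]
    · change ∑ a ∈ range (c.d i), z * x i a a = 0
      rw [← Finset.mul_sum, h2.2 i hi, mul_zero]

/-- Dominant weights. -/
def Dom (m : Fin s → ℕ → ℕ) : Prop :=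
  ∀ i a, a + 1 < c.d i → (m i (a + 1) : ℤ) - m (c.st i) (c.d i - 1 - (a + 1)) ≤
    m i a - m (c.st i) (c.d i - 1 - a)

/-- The weight with multiplicities `m`. -/
def wtM (m : Fin s → ℕ → ℕ) (h : Fin s → ℕ → ℂ) : ℂ :=
  ∑ i, ∑ a ∈ range (c.d i), (m i a : ℂ) * h i a

/-- The weight of a product of `n i b` minors of size `b + 1` of the block `i`. -/
def wtC (n : Fin s → ℕ → ℕ) (h : Fin s → ℕ → ℂ) : ℂ :=
  ∑ i, ∑ b ∈ range (c.d i), (n i b : ℂ) * ∑ a ∈ range (b + 1), h i a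

/-- The degree of a product of minors. -/
def degC (n : Fin s → ℕ → ℕ) : ℕ := ∑ i, ∑ b ∈ range (c.d i), n i b * (b + 1)

/-- **Combinatorics.** A dominant weight on which all complex structures have values `≤ l` is the
weight of a product of minors of degree `≤ l`. -/
def JComb : Prop :=
  ∀ (s N : ℕ) (c : CD s N) (_ : c.Ok) (m : Fin s → ℕ → ℕ) (_ : Dom c m) (l : ℕ)
    (_ : ∀ ε, Sgn c ε → ∑ i, ∑ a ∈ range (c.d i), (m i a : ℤ) * eta c ε i a ≤ l)
    (_ : (2 : ℤ) ∣ (l : ℤ) - ∑ i, ∑ a ∈ range (c.d i), (m i a : ℤ)),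
    ∃ (n : Fin s → ℕ → ℕ) (t : ℕ), l = degC c n + 2 * t ∧
      ∀ h, HH c h → wtM c m h = wtC c n h

/-- **Highest weight vectors.** -/
def JHigh : Prop :=
  ∀ (s N : ℕ) (c : CD s N) (_ : c.Ok) (V : Type) [AddCommGroup V] [Module ℂ V]
    (e : Basis c.R ℂ V) (k : ℕ)
    (U : Submodule ℂ (MultilinearMap ℂ (fun _ : Fin k => V) ℂ)) (_ : U ≠ ⊥)
    (_ : ∀ X ∈ gD c e, ∀ F ∈ U, ac X F ∈ U),
    ∃ F ∈ U, F ≠ 0 ∧ (∀ x, LieD c x → SLow x → ac (bE c e x) F = 0) ∧
      ∃ m : Fin s → ℕ → ℕ, ∑ i, ∑ a ∈ range (c.d i), m i a = k ∧ Dom c m ∧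
        ∀ h, HH c h → ac (bE c e (dg h)) F = wtM c m h • F

/-- **Products of minors.** -/
def JCand : Prop :=
  ∀ (s N : ℕ) (c : CD s N) (_ : c.Ok) (V : Type) [AddCommGroup V] [Module ℂ V]
    (e : Basis c.R ℂ V) (β : V →ₗ[ℂ] V →ₗ[ℂ] ℂ) (_ : β ≠ 0) (n : Fin s → ℕ → ℕ) (t : ℕ),
    ∃ F : MultilinearMap ℂ (fun _ : Fin (degC c n + 2 * t) => V) ℂ, F ≠ 0 ∧
      (∀ x, SLow x → (∀ u v, β (bE c e x u) v + β u (bE c e x v) = 0) →
        ac (bE c e x) F = 0) ∧
      ∀ h, (∀ u v, β (bE c e (dg h) u) v + β u (bE c e (dg h) v) = 0) →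
        ac (bE c e (dg h)) F = wtC c n h • F

/-- The action on pairs of forms. -/
def ac2 {V : Type} [AddCommGroup V] [Module ℂ V] {k l : ℕ} (X : V →ₗ[ℂ] V) :
    (MultilinearMap ℂ (fun _ : Fin k => V) ℂ × MultilinearMap ℂ (fun _ : Fin l => V) ℂ) →ₗ[ℂ]
      MultilinearMap ℂ (fun _ : Fin k => V) ℂ × MultilinearMap ℂ (fun _ : Fin l => V) ℂ :=
  (ac X).prodMap (ac X)

/-- **Uniqueness.** Two vectors of the same weight which are killed by the lower triangular matrices
are related by an equivariant map. -/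
def JUniq : Prop :=
  ∀ (s N : ℕ) (c : CD s N) (_ : c.Ok) (V : Type) [AddCommGroup V] [Module ℂ V]
    (e : Basis c.R ℂ V) (k l : ℕ)
    (_ : ∀ S : Submodule ℂ (MultilinearMap ℂ (fun _ : Fin k => V) ℂ ×
        MultilinearMap ℂ (fun _ : Fin l => V) ℂ), (∀ X ∈ gD c e, ∀ p ∈ S, ac2 X p ∈ S) →
      ∃ π : (MultilinearMap ℂ (fun _ : Fin k => V) ℂ ×
          MultilinearMap ℂ (fun _ : Fin l => V) ℂ) →ₗ[ℂ] MultilinearMap ℂ (fun _ : Fin k => V) ℂ ×
          MultilinearMap ℂ (fun _ : Fin l => V) ℂ,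
        (∀ X ∈ gD c e, ∀ p, π (ac2 X p) = ac2 X (π p)) ∧ (∀ p, π p ∈ S) ∧ ∀ p ∈ S, π p = p)
    (F : MultilinearMap ℂ (fun _ : Fin k => V) ℂ) (F' : MultilinearMap ℂ (fun _ : Fin l => V) ℂ)
    (_ : F' ≠ 0) (_ : ∀ x, LieD c x → SLow x → ac (bE c e x) F = 0 ∧ ac (bE c e x) F' = 0)
    (_ : ∀ h, HH c h → ∃ r : ℂ, ac (bE c e (dg h)) F = r • F ∧ ac (bE c e (dg h)) F' = r • F'),
    ∃ Θ : MultilinearMap ℂ (fun _ : Fin l => V) ℂ →ₗ[ℂ] MultilinearMap ℂ (fun _ : Fin k => V) ℂ,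
      (∀ X ∈ gD c e, ∀ A, Θ (ac X A) = ac X (Θ A)) ∧ Θ F' = F

end

end Pool.Agent.Y90.G
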