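import Mathlib
import Pool.Agent.Y90.G.Stm1
import Pool.Agent.Y90.Pie3
import Pool.Agent.Y90.Bal1
import Pool.Agent.Y90.Desc
import Pool.Agent.Y90.Gen
import Pool.Agent.W546.GHC.Defs

/-!
# Forms on a period matrix: statements

`V = Fin G ⊕ Fin G → ℂ`, `LZ Z` is the complex Lie algebra generated by the conjugates `DS Z σ` of the
complex structure `DZ Z` (with eigenvalues `± 1`), `IrS (LZ Z) U` says that `U` is an irreducible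
submodule, `om G` is the symplectic form.
-/

set_option linter.unusedSectionVars false

namespace Pool.Agent.Y90.G

open Matrix Module Pool.Agent.W437.HC Pool.Agent.W437.HD Pool.Agent.W548.Odd
open Pool.Agent.H204R3.CM (IsHodge)
open Pool.Agent.W546.GHC

noncomputable section

variable {G : ℕ}

/-- Multilinear forms. -/
abbrev MV (G : ℕ) (κ : Type) := MultilinearMap ℂ (fun _ : κ => Fin G ⊕ Fin G → ℂ) ℂ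

/-- Invariant forms. -/
def InvF (Z : Matrix (Fin G) (Fin G) ℂ) {κ : Type} [Fintype κ] [DecidableEq κ] (F : MV G κ) :
    Prop := ∀ X ∈ LZ Z, ac (mulVecLin X) F = 0

/-- The endomorphism kills all invariant forms. -/
def KillI (Z : Matrix (Fin G) (Fin G) ℂ)
    (X : (Fin G ⊕ Fin G → ℂ) →ₗ[ℂ] (Fin G ⊕ Fin G → ℂ)) : Prop :=
  ∀ (κ : Type) [Fintype κ] [DecidableEq κ] (F : MV G κ), InvF Z F → ac X F = 0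

/-- The endomorphism fixes all invariant forms. -/
def FixI (Z : Matrix (Fin G) (Fin G) ℂ)
    (g : (Fin G ⊕ Fin G → ℂ) →ₗ[ℂ] (Fin G ⊕ Fin G → ℂ)) : Prop :=
  ∀ (κ : Type) [Fintype κ] [DecidableEq κ] (F : MV G κ), InvF Z F → gr g F = F

/-- The trace of `DS Z σ` on the submodule `U`. -/
def tz (Z : Matrix (Fin G) (Fin G) ℂ) (σ : ℂ ≃+* ℂ) (U : Submodule ℂ (Fin G ⊕ Fin G → ℂ)) : ℤ :=
  tr Z (cjS σ.symm U)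

/-- Commuting with the equivariant maps. -/
def ComE (Z : Matrix (Fin G) (Fin G) ℂ)
    (X : (Fin G ⊕ Fin G → ℂ) →ₗ[ℂ] (Fin G ⊕ Fin G → ℂ)) : Prop :=
  ∀ T : (Fin G ⊕ Fin G → ℂ) →ₗ[ℂ] (Fin G ⊕ Fin G → ℂ),
    (∀ Y ∈ LZ Z, ∀ v, T (Y *ᵥ v) = Y *ᵥ T v) → ∀ v, T (X v) = X (T v)

/-- Elements which kill the invariant forms for simple reasons. -/
def LieC (Z : Matrix (Fin G) (Fin G) ℂ)
    (X : (Fin G ⊕ Fin G → ℂ) →ₗ[ℂ] (Fin G ⊕ Fin G → ℂ)) : Prop :=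
  ComE Z X ∧ (∀ u v, om G (X u) v + om G u (X v) = 0) ∧
    ∀ U (_ : IrS (LZ Z) U) (_ : ¬SDu Z U) (hX : ∀ u ∈ U, X u ∈ U),
      LinearMap.trace ℂ U (X.restrict hX) = 0

/-- Elements which fix the invariant forms for simple reasons. -/
def GrpC (Z : Matrix (Fin G) (Fin G) ℂ)
    (g : (Fin G ⊕ Fin G → ℂ) →ₗ[ℂ] (Fin G ⊕ Fin G → ℂ)) : Prop :=
  ComE Z g ∧ (∀ u v, om G (g u) (g v) = om G u v) ∧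
    ∀ U (_ : IrS (LZ Z) U) (_ : ¬SDu Z U) (hg : ∀ u ∈ U, g u ∈ U),
      LinearMap.det (g.restrict hg) = 1

/-- The hypotheses on the period matrix: rank one elements, the classification of the irreducible
submodules (self-dual, or of trace zero, or with the traces of a line), and the independence of the
lines. -/
structure Hyp (Z : Matrix (Fin G) (Fin G) ℂ) : Prop where
  pm : PM Z
  rk : ∀ U, IrS (LZ Z) U → 2 ≤ finrank ℂ U →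
    Rk1 Z U ∧ ∀ (σ : ℂ ≃+* ℂ) (c : ℂ), ∃ u ∈ U, DS Z σ *ᵥ u ≠ c • u
  cl : ∀ U, IrS (LZ Z) U → (SDu Z U ∧ 2 ≤ finrank ℂ U) ∨ (∀ σ, tz Z σ U = 0) ∨
    ∃ U₀, IrS (LZ Z) U₀ ∧ finrank ℂ U₀ = 1 ∧ ∀ σ, tz Z σ U = tz Z σ U₀
  sg : ∀ (n : ℕ) (U : Fin n → Submodule ℂ (Fin G ⊕ Fin G → ℂ)),
    (∀ i, IrS (LZ Z) (U i) ∧ finrank ℂ (U i) = 1) →
    (∀ i j, i ≠ j → (∃ σ, tz Z σ (U i) ≠ tz Z σ (U j)) ∧ ∃ σ, tz Z σ (U i) ≠ -tz Z σ (U j)) →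
    ∀ ε : Fin n → ℤ, (∀ i, ε i = 1 ∨ ε i = -1) → ∃ σ, ∀ i, tz Z σ (U i) = ε i

/-- Elements of the Lie algebra. -/
def JLieMem : Prop :=
  ∀ (G : ℕ) (Z : Matrix (Fin G) (Fin G) ℂ) (_ : Hyp Z) (X : _), LieC Z X → KillI Z X

/-- Elements of the group. -/
def JGrpMem : Prop :=
  ∀ (G : ℕ) (Z : Matrix (Fin G) (Fin G) ℂ) (_ : Hyp Z) (g : _), GrpC Z g → FixI Z g

/-- Complete reducibility of spaces of forms. -/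
def JRed : Prop :=
  ∀ (G : ℕ) (Z : Matrix (Fin G) (Fin G) ℂ) (_ : PM Z) (k l : ℕ)
    (S : Submodule ℂ (MV G (Fin k) × MV G (Fin l)))
    (_ : ∀ X ∈ LZ Z, ∀ p ∈ S, ac2 (mulVecLin X) p ∈ S),
    ∃ π : (MV G (Fin k) × MV G (Fin l)) →ₗ[ℂ] MV G (Fin k) × MV G (Fin l),
      (∀ X ∈ LZ Z, ∀ p, π (ac2 (mulVecLin X) p) = ac2 (mulVecLin X) (π p)) ∧
      (∀ p, π p ∈ S) ∧ ∀ p ∈ S, π p = p

/-- The forms obtained from invariant forms by fixing `l` variables. -/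
def NL (Z : Matrix (Fin G) (Fin G) ℂ) (k l : ℕ) : Submodule ℂ (MV G (Fin k)) :=
  Submodule.span ℂ {F | ∃ (Γ : MV G (Fin k ⊕ Fin l)) (w : Fin l → Fin G ⊕ Fin G → ℂ),
    InvF Z Γ ∧ ∀ v, F v = Γ (Sum.elim v w)}

/-- Equivariant maps between spaces of forms are given by invariant forms. -/
def JEqv : Prop :=
  ∀ (G : ℕ) (Z : Matrix (Fin G) (Fin G) ℂ) (_ : PM Z) (k l : ℕ)
    (Θ : MV G (Fin k) →ₗ[ℂ] MV G (Fin l))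
    (_ : ∀ X ∈ LZ Z, ∀ A, Θ (ac (mulVecLin X) A) = ac (mulVecLin X) (Θ A)),
    (∀ X, KillI Z X → ∀ A, Θ (ac X A) = ac X (Θ A)) ∧
    (∀ g, FixI Z g → ∀ A, Θ (gr g A) = gr g (Θ A)) ∧ ∀ A, Θ A ∈ NL Z l k

/-- The decomposition of `V`: representatives `W i` of the irreducible submodules, and equivariant
maps `T j`, injective on `W (lab j)`, such that `V` is the direct sum of the images `T j (W (lab j))`. -/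
structure Mod0 (Z : Matrix (Fin G) (Fin G) ℂ) {s N : ℕ}
    (W : Fin s → Submodule ℂ (Fin G ⊕ Fin G → ℂ)) (lab : Fin N → Fin s)
    (T : Fin N → (Fin G ⊕ Fin G → ℂ) →ₗ[ℂ] (Fin G ⊕ Fin G → ℂ)) : Prop where
  irr : ∀ i, IrS (LZ Z) (W i)
  sur : ∀ i, ∃ j, lab j = i
  niso : ∀ i i' (S : (Fin G ⊕ Fin G → ℂ) →ₗ[ℂ] (Fin G ⊕ Fin G → ℂ)),
    (∀ X ∈ LZ Z, ∀ u ∈ W i, S (X *ᵥ u) = X *ᵥ S u) → (∀ u ∈ W i, S u ∈ W i') →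
    (∃ u ∈ W i, S u ≠ 0) → i = i'
  teq : ∀ j, ∀ X ∈ LZ Z, ∀ v, T j (X *ᵥ v) = X *ᵥ T j v
  tin : ∀ u : Fin N → Fin G ⊕ Fin G → ℂ, (∀ j, u j ∈ W (lab j)) → ∑ j, T j (u j) = 0 →
    ∀ j, u j = 0
  tsp : ∀ v, ∃ u : Fin N → Fin G ⊕ Fin G → ℂ, (∀ j, u j ∈ W (lab j)) ∧ v = ∑ j, T j (u j)
  thom : ∀ i (S : (Fin G ⊕ Fin G → ℂ) →ₗ[ℂ] (Fin G ⊕ Fin G → ℂ)),
    (∀ X ∈ LZ Z, ∀ u ∈ W i, S (X *ᵥ u) = X *ᵥ S u) →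
    ∃ a : Fin N → ℂ, (∀ j, lab j ≠ i → a j = 0) ∧ ∀ u ∈ W i, S u = ∑ j, a j • T j u
  all : ∀ U, IrS (LZ Z) U → ∃ i, ∃ S : (Fin G ⊕ Fin G → ℂ) →ₗ[ℂ] (Fin G ⊕ Fin G → ℂ),
    (∀ X ∈ LZ Z, ∀ v, S (X *ᵥ v) = X *ᵥ S v) ∧ (∀ u ∈ U, S u = 0 → u = 0) ∧ U.map S = W i

/-- Existence of the decomposition. -/
def JMod0 : Prop :=
  ∀ (G : ℕ) (Z : Matrix (Fin G) (Fin G) ℂ) (_ : PM Z), ∃ (s N : ℕ)
    (W : Fin s → Submodule ℂ (Fin G ⊕ Fin G → ℂ)) (lab : Fin N → Fin s)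
    (T : Fin N → (Fin G ⊕ Fin G → ℂ) →ₗ[ℂ] (Fin G ⊕ Fin G → ℂ)), Mod0 Z W lab T

/-- The invariant pairings between the representatives. -/
structure Pai (Z : Matrix (Fin G) (Fin G) ℂ) {s : ℕ}
    (W : Fin s → Submodule ℂ (Fin G ⊕ Fin G → ℂ)) (st : Fin s → Fin s)
    (β : Fin s → (Fin G ⊕ Fin G → ℂ) →ₗ[ℂ] (Fin G ⊕ Fin G → ℂ) →ₗ[ℂ] ℂ) : Prop where
  stst : ∀ i, st (st i) = i
  binv : ∀ i, ∀ X ∈ LZ Z, ∀ u v, β i (X *ᵥ u) v + β i u (X *ᵥ v) = 0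
  bsym : ∀ i, ∀ u ∈ W i, ∀ v ∈ W (st i), β (st i) v u = (if st i = i then -1 else 1) * β i u v
  bnd : ∀ i, ∀ u ∈ W i, (∀ v ∈ W (st i), β i u v = 0) → u = 0
  bz : ∀ i i' (b : (Fin G ⊕ Fin G → ℂ) →ₗ[ℂ] (Fin G ⊕ Fin G → ℂ) →ₗ[ℂ] ℂ),
    (∀ X ∈ LZ Z, ∀ u ∈ W i, ∀ v ∈ W i', b (X *ᵥ u) v + b u (X *ᵥ v) = 0) → i' ≠ st i →
    ∀ u ∈ W i, ∀ v ∈ W i', b u v = 0
  bu : ∀ i (b : (Fin G ⊕ Fin G → ℂ) →ₗ[ℂ] (Fin G ⊕ Fin G → ℂ) →ₗ[ℂ] ℂ),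
    (∀ X ∈ LZ Z, ∀ u ∈ W i, ∀ v ∈ W (st i), b (X *ᵥ u) v + b u (X *ᵥ v) = 0) →
    ∃ a : ℂ, ∀ u ∈ W i, ∀ v ∈ W (st i), b u v = a * β i u v
  even : ∀ i, st i = i → Even (finrank ℂ (W i))
  dst : ∀ i, finrank ℂ (W (st i)) = finrank ℂ (W i)
  ts : ∀ i σ, tz Z σ (W (st i)) = -tz Z σ (W i)

/-- Existence of the pairings. -/
def JPai : Prop :=
  ∀ (G : ℕ) (Z : Matrix (Fin G) (Fin G) ℂ) (_ : Hyp Z) (s N : ℕ)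
    (W : Fin s → Submodule ℂ (Fin G ⊕ Fin G → ℂ)) (lab : Fin N → Fin s)
    (T : Fin N → (Fin G ⊕ Fin G → ℂ) →ₗ[ℂ] (Fin G ⊕ Fin G → ℂ)) (_ : Mod0 Z W lab T),
    ∃ (st : Fin s → Fin s) (β : Fin s → (Fin G ⊕ Fin G → ℂ) →ₗ[ℂ] (Fin G ⊕ Fin G → ℂ) →ₗ[ℂ] ℂ),
      Pai Z W st β

/-- The traces, the lines and the signs. -/
structure Num (Z : Matrix (Fin G) (Fin G) ℂ) {s : ℕ}
    (W : Fin s → Submodule ℂ (Fin G ⊕ Fin G → ℂ)) (st ka : Fin s → Fin s) : Prop where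
  ka1 : ∀ i, Odd (finrank ℂ (W i)) → finrank ℂ (W (ka i)) = 1
  kast : ∀ i, Odd (finrank ℂ (W i)) → ka (st i) = st (ka i)
  kal : ∀ i, finrank ℂ (W i) = 1 → ka i = i
  ev : ∀ i, Even (finrank ℂ (W i)) → ∀ σ, tz Z σ (W i) = 0
  od : ∀ i, Odd (finrank ℂ (W i)) → ∀ σ, tz Z σ (W i) = tz Z σ (W (ka i))
  pat : ∀ ε : Fin s → ℤ, (∀ i, finrank ℂ (W i) = 1 → (ε i = 1 ∨ ε i = -1) ∧ ε (st i) = -ε i) →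
    ∃ σ, ∀ i, finrank ℂ (W i) = 1 → tz Z σ (W i) = ε i

/-- Existence of the lines, and all patterns of signs occur. -/
def JNum : Prop :=
  ∀ (G : ℕ) (Z : Matrix (Fin G) (Fin G) ℂ) (_ : Hyp Z) (s N : ℕ)
    (W : Fin s → Submodule ℂ (Fin G ⊕ Fin G → ℂ)) (lab : Fin N → Fin s)
    (T : Fin N → (Fin G ⊕ Fin G → ℂ) →ₗ[ℂ] (Fin G ⊕ Fin G → ℂ)) (_ : Mod0 Z W lab T)
    (st : Fin s → Fin s) (β : Fin s → (Fin G ⊕ Fin G → ℂ) →ₗ[ℂ] (Fin G ⊕ Fin G → ℂ) →ₗ[ℂ] ℂ)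
    (_ : Pai Z W st β), ∃ ka : Fin s → Fin s, Num Z W st ka

/-- The complete data. -/
structure Mod (Z : Matrix (Fin G) (Fin G) ℂ) {s N : ℕ} (c : CD s N)
    (W : Fin s → Submodule ℂ (Fin G ⊕ Fin G → ℂ))
    (T : Fin N → (Fin G ⊕ Fin G → ℂ) →ₗ[ℂ] (Fin G ⊕ Fin G → ℂ))
    (β : Fin s → (Fin G ⊕ Fin G → ℂ) →ₗ[ℂ] (Fin G ⊕ Fin G → ℂ) →ₗ[ℂ] ℂ) : Prop where
  pm : PM Z
  m0 : Mod0 Z W c.lab T
  pai : Pai Z W c.st β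
  num : Num Z W c.st c.ka
  dim : ∀ i, finrank ℂ (W i) = c.d i
  ok : c.Ok

/-- Families of bases of the `W i` which are adapted to the pairings. -/
def Fr {s N : ℕ} (c : CD s N) (W : Fin s → Submodule ℂ (Fin G ⊕ Fin G → ℂ))
    (β : Fin s → (Fin G ⊕ Fin G → ℂ) →ₗ[ℂ] (Fin G ⊕ Fin G → ℂ) →ₗ[ℂ] ℂ)
    (w : Fin s → ℕ → Fin G ⊕ Fin G → ℂ) : Prop :=
  (∀ i a, a < c.d i → w i a ∈ W i) ∧ ∀ i a b, a < c.d i → b < c.d i →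
    β i (w i a) (w (c.st i) b) = if a + b + 1 = c.d i then sg c i a else 0

/-- Existence of adapted bases. -/
def JFr0 : Prop :=
  ∀ (G : ℕ) (Z : Matrix (Fin G) (Fin G) ℂ) (s N : ℕ) (c : CD s N)
    (W : Fin s → Submodule ℂ (Fin G ⊕ Fin G → ℂ))
    (T : Fin N → (Fin G ⊕ Fin G → ℂ) →ₗ[ℂ] (Fin G ⊕ Fin G → ℂ))
    (β : Fin s → (Fin G ⊕ Fin G → ℂ) →ₗ[ℂ] (Fin G ⊕ Fin G → ℂ) →ₗ[ℂ] ℂ) (_ : Mod Z c W T β),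
    ∃ w, Fr c W β w

/-- Existence of adapted bases consisting of eigenvectors of a complex structure. -/
def JFr : Prop :=
  ∀ (G : ℕ) (Z : Matrix (Fin G) (Fin G) ℂ) (s N : ℕ) (c : CD s N)
    (W : Fin s → Submodule ℂ (Fin G ⊕ Fin G → ℂ))
    (T : Fin N → (Fin G ⊕ Fin G → ℂ) →ₗ[ℂ] (Fin G ⊕ Fin G → ℂ))
    (β : Fin s → (Fin G ⊕ Fin G → ℂ) →ₗ[ℂ] (Fin G ⊕ Fin G → ℂ) →ₗ[ℂ] ℂ) (_ : Mod Z c W T β)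
    (w₀ : Fin s → ℕ → Fin G ⊕ Fin G → ℂ) (_ : Fr c W β w₀) (σ : ℂ ≃+* ℂ),
    ∃ w, Fr c W β w ∧
      (∀ i a, a < c.d i →
        DS Z σ *ᵥ w i a = ((etaT (tz Z σ (W i)) (c.d i) a : ℤ) : ℂ) • w i a) ∧
      ∀ i, c.st i ≠ i → ∃ x : Matrix (Fin (c.d i)) (Fin (c.d i)) ℂ, x.det = 1 ∧
        ∀ b : Fin (c.d i), w i b = ∑ a : Fin (c.d i), x a b • w₀ i a

/-- The basis `T j (w (lab j) a)` of `V`. -/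
def BasOf {s N : ℕ} (c : CD s N) (T : Fin N → (Fin G ⊕ Fin G → ℂ) →ₗ[ℂ] (Fin G ⊕ Fin G → ℂ))
    (w : Fin s → ℕ → Fin G ⊕ Fin G → ℂ) (e : Basis c.R ℂ (Fin G ⊕ Fin G → ℂ)) : Prop :=
  ∀ r : c.R, e r = T r.1 (w (c.lab r.1) r.2)

/-- The basis. -/
def JBas : Prop :=
  ∀ (G : ℕ) (Z : Matrix (Fin G) (Fin G) ℂ) (s N : ℕ) (c : CD s N)
    (W : Fin s → Submodule ℂ (Fin G ⊕ Fin G → ℂ))
    (T : Fin N → (Fin G ⊕ Fin G → ℂ) →ₗ[ℂ] (Fin G ⊕ Fin G → ℂ))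
    (β : Fin s → (Fin G ⊕ Fin G → ℂ) →ₗ[ℂ] (Fin G ⊕ Fin G → ℂ) →ₗ[ℂ] ℂ) (_ : Mod Z c W T β)
    (w : Fin s → ℕ → Fin G ⊕ Fin G → ℂ) (_ : Fr c W β w), ∃ e, BasOf c T w e

/-- The elements of the Lie algebra are block matrices. -/
def JBlk : Prop :=
  ∀ (G : ℕ) (Z : Matrix (Fin G) (Fin G) ℂ) (s N : ℕ) (c : CD s N)
    (W : Fin s → Submodule ℂ (Fin G ⊕ Fin G → ℂ))
    (T : Fin N → (Fin G ⊕ Fin G → ℂ) →ₗ[ℂ] (Fin G ⊕ Fin G → ℂ))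
    (β : Fin s → (Fin G ⊕ Fin G → ℂ) →ₗ[ℂ] (Fin G ⊕ Fin G → ℂ) →ₗ[ℂ] ℂ) (_ : Mod Z c W T β)
    (w : Fin s → ℕ → Fin G ⊕ Fin G → ℂ) (_ : Fr c W β w) (e : _) (_ : BasOf c T w e),
    ∀ X ∈ LZ Z, ∃ x, LieD c x ∧ TrD c x ∧ mulVecLin X = bE c e x

/-- Block matrices of trace zero satisfy the conditions. -/
def JLieC : Prop :=
  ∀ (G : ℕ) (Z : Matrix (Fin G) (Fin G) ℂ) (s N : ℕ) (c : CD s N)
    (W : Fin s → Submodule ℂ (Fin G ⊕ Fin G → ℂ))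
    (T : Fin N → (Fin G ⊕ Fin G → ℂ) →ₗ[ℂ] (Fin G ⊕ Fin G → ℂ))
    (β : Fin s → (Fin G ⊕ Fin G → ℂ) →ₗ[ℂ] (Fin G ⊕ Fin G → ℂ) →ₗ[ℂ] ℂ) (_ : Mod Z c W T β)
    (w : Fin s → ℕ → Fin G ⊕ Fin G → ℂ) (_ : Fr c W β w) (e : _) (_ : BasOf c T w e),
    ∀ x, LieD c x → TrZ c x → LieC Z (bE c e x)

/-- The diagonal elements belong to the Lie algebra up to trace zero. -/
def JTor : Prop :=
  ∀ (G : ℕ) (Z : Matrix (Fin G) (Fin G) ℂ) (s N : ℕ) (c : CD s N)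
    (W : Fin s → Submodule ℂ (Fin G ⊕ Fin G → ℂ))
    (T : Fin N → (Fin G ⊕ Fin G → ℂ) →ₗ[ℂ] (Fin G ⊕ Fin G → ℂ))
    (β : Fin s → (Fin G ⊕ Fin G → ℂ) →ₗ[ℂ] (Fin G ⊕ Fin G → ℂ) →ₗ[ℂ] ℂ) (_ : Mod Z c W T β)
    (w : Fin s → ℕ → Fin G ⊕ Fin G → ℂ) (_ : Fr c W β w) (e : _) (_ : BasOf c T w e)
    (_ : ∀ X ∈ LZ Z, ∃ x, LieD c x ∧ TrD c x ∧ mulVecLin X = bE c e x),
    ∀ h, HH c h → ∃ X ∈ LZ Z, ∃ x, LieD c x ∧ TrZ c x ∧ bE c e (dg h) = mulVecLin X + bE c e x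

/-- The change of adapted bases. -/
def JConj : Prop :=
  ∀ (G : ℕ) (Z : Matrix (Fin G) (Fin G) ℂ) (s N : ℕ) (c : CD s N)
    (W : Fin s → Submodule ℂ (Fin G ⊕ Fin G → ℂ))
    (T : Fin N → (Fin G ⊕ Fin G → ℂ) →ₗ[ℂ] (Fin G ⊕ Fin G → ℂ))
    (β : Fin s → (Fin G ⊕ Fin G → ℂ) →ₗ[ℂ] (Fin G ⊕ Fin G → ℂ) →ₗ[ℂ] ℂ) (_ : Mod Z c W T β)
    (w w' : Fin s → ℕ → Fin G ⊕ Fin G → ℂ) (_ : Fr c W β w) (_ : Fr c W β w') (e : _)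
    (_ : BasOf c T w e) (_ : ∀ i, c.st i ≠ i → ∃ x : Matrix (Fin (c.d i)) (Fin (c.d i)) ℂ,
      x.det = 1 ∧ ∀ b : Fin (c.d i), w' i b = ∑ a : Fin (c.d i), x a b • w i a),
    ∃ g g' : (Fin G ⊕ Fin G → ℂ) →ₗ[ℂ] (Fin G ⊕ Fin G → ℂ), GrpC Z g ∧ GrpC Z g' ∧
      (∀ v, g (g' v) = v) ∧ (∀ v, g' (g v) = v) ∧
      ∀ r : c.R, g (e r) = T r.1 (w' (c.lab r.1) r.2)

/-- `F` is the complex extension of the rational form `f`. -/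
def IsCx {B κ : Type} (F : MultilinearMap ℂ (fun _ : κ => B → ℂ) ℂ)
    (f : MultilinearMap ℚ (fun _ : κ => B → ℚ) ℚ) : Prop :=
  ∀ v : κ → B → ℚ, F (fun j b => ((v j b : ℚ) : ℂ)) = ((f v : ℚ) : ℂ)

/-- Rational descent. -/
def JDesc : Prop :=
  ∀ (G : ℕ) (Z : Matrix (Fin G) (Fin G) ℂ) (_ : PM Z) (k l : ℕ)
    (f : MultilinearMap ℚ (fun _ : Fin k => Fin G ⊕ Fin G → ℚ) ℚ) (F : MV G (Fin k))
    (_ : IsCx F f) (_ : F ∈ NL Z k l),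
    f ∈ Submodule.span ℚ {g | ∃ (Γ : MultilinearMap ℚ
      (fun _ : Fin k ⊕ Fin l => Fin G ⊕ Fin G → ℚ) ℚ) (Γc : MV G (Fin k ⊕ Fin l))
      (w : Fin l → Fin G ⊕ Fin G → ℚ), IsCx Γc Γ ∧ InvF Z Γc ∧ ∀ v, g v = Γ (Sum.elim v w)}

/-- From multilinear forms to cohomology classes on `X × X ^ l`. -/
def JAlt : Prop :=
  ∀ (B : Type) [Fintype B] [DecidableEq B] (T : Type) [AddCommGroup T] [Module ℂ T]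
    (per : (B → ℚ) →+ T) (J : Matrix B B ℝ) (_ : Cht per J) (k l : ℕ)
    (f : (B → ℚ) [⋀^Fin k]→ₗ[ℚ] ℚ)
    (_ : f.toMultilinearMap ∈ Submodule.span ℚ {g | ∃ (Γ : MultilinearMap ℚ
      (fun _ : Fin k ⊕ Fin l => B → ℚ) ℚ)
      (Γc : MultilinearMap ℂ (fun _ : Fin k ⊕ Fin l => B → ℂ) ℂ) (w : Fin l → B → ℚ),
      IsCx Γc Γ ∧ ac (mulVecLin (DJ J)) Γc = 0 ∧ ∀ v, g v = Γ (Sum.elim v w)}),
    f ∈ Submodule.span ℚ {g : (B → ℚ) [⋀^Fin k]→ₗ[ℚ] ℚ |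
      ∃ (r : ((B → ℚ) × (Fin l → B → ℚ)) [⋀^Fin k ⊕ Fin l]→ₗ[ℚ] ℚ)
        (y : Fin l → Fin l → B → ℚ), IsHodge (St.perProd per (per.compLeft (Fin l))) r ∧
        ∀ v, g v = r (Sum.elim (fun j => (v j, 0)) (fun j => (0, y j)))}

/-- The complex span of a space of rational forms. -/
def CxS {B : Type} {k : ℕ} (V : Submodule ℚ ((B → ℚ) [⋀^Fin k]→ₗ[ℚ] ℚ)) :
    Submodule ℂ (MultilinearMap ℂ (fun _ : Fin k => B → ℂ) ℂ) :=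
  Submodule.span ℂ {F | ∃ f ∈ V, IsCx F f.toMultilinearMap}

/-- Hodge substructures and their level in terms of the derivation `DJ J`. -/
def JBridge : Prop :=
  ∀ (B : Type) [Fintype B] [DecidableEq B] (T : Type) [AddCommGroup T] [Module ℂ T]
    (per : (B → ℚ) →+ T) (J : Matrix B B ℝ) (_ : Cht per J) (k : ℕ) (l : ℕ)
    (V : Submodule ℚ ((B → ℚ) [⋀^Fin k]→ₗ[ℚ] ℚ)) (_ : IsHodgeSubstructure per V)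
    (_ : LevelLE per V l),
    (∀ F ∈ CxS V, ac (mulVecLin (DJ J)) F ∈ CxS V) ∧
      ∀ F ∈ CxS V, F ≠ 0 → ∀ c : ℂ, ac (mulVecLin (DJ J)) F = c • F → ∃ n : ℤ, c = n ∧ n ≤ l

/-- All conjugates of the complex structure. -/
def JGal : Prop :=
  ∀ (G : ℕ) (Z : Matrix (Fin G) (Fin G) ℂ) (_ : PM Z) (k l : ℕ)
    (V : Submodule ℚ ((Fin G ⊕ Fin G → ℚ) [⋀^Fin k]→ₗ[ℚ] ℚ))
    (_ : ∀ F ∈ CxS V, ac (mulVecLin (DZ Z)) F ∈ CxS V)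
    (_ : ∀ F ∈ CxS V, F ≠ 0 → ∀ c : ℂ, ac (mulVecLin (DZ Z)) F = c • F → ∃ n : ℤ, c = n ∧ n ≤ l),
    (∀ X ∈ LZ Z, ∀ F ∈ CxS V, ac (mulVecLin X) F ∈ CxS V) ∧
      ∀ σ, ∀ F ∈ CxS V, F ≠ 0 → ∀ c : ℤ, ac (mulVecLin (DS Z σ)) F = (c : ℂ) • F → c ≤ l

end

end Pool.Agent.Y90.G
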